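import Pool.Agent.Lib.MP_fa837f_gt.TS.Iface

/-!
SMALL and CUBE.
-/

set_option autoImplicit false

open MeasureTheory Set Filter Topology

namespace Pool.Agent.Lib.MP_fa837f_gt.TS.H87

open Pool.Agent.Lib.MP_fa837f_gt Pool.Agent.Lib.MP_fa837f_gt.TS

/-- Positive functions with a concave logarithm. -/
theorem logConcave_of {n : ℕ} {F : (Fin n → ℝ) → ℝ} (hpos : ∀ t, 0 < F t)
    (h : ConcaveOn ℝ Set.univ fun t => Real.log (F t)) : LogConcave F := by
  refine ⟨hpos, fun s t l hl hl' => ?_⟩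
  have h1 := h.2 (mem_univ s) (mem_univ t) hl (by linarith : (0 : ℝ) ≤ 1 - l) (by ring)
  rw [← Real.exp_log (hpos (l • s + (1 - l) • t)), Real.rpow_def_of_pos (hpos s),
    Real.rpow_def_of_pos (hpos t), ← Real.exp_add]
  apply Real.exp_le_exp.2
  simp only [smul_eq_mul] at h1
  linarith

theorem concaveOn_log {n : ℕ} {F : (Fin n → ℝ) → ℝ} (h : LogConcave F) :
    ConcaveOn ℝ Set.univ fun t => Real.log (F t) := by
  refine ⟨convex_univ, fun s _ t _ a b ha hb hab => ?_⟩
  have hb' : b = 1 - a := by linarith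
  subst hb'
  have h1 := h.2 s t a ha (by linarith)
  have h2 : 0 < F s ^ a * F t ^ (1 - a) :=
    mul_pos (Real.rpow_pos_of_pos (h.1 s) _) (Real.rpow_pos_of_pos (h.1 t) _)
  have h3 := Real.log_le_log h2 h1
  rw [Real.log_mul (Real.rpow_pos_of_pos (h.1 s) _).ne' (Real.rpow_pos_of_pos (h.1 t) _).ne',
    Real.log_rpow (h.1 s), Real.log_rpow (h.1 t)] at h3
  simpa only [smul_eq_mul] using h3

/-- The parametrised volume. -/
theorem cubeVol_eq (hpar : ParStatement) {n k : ℕ} (H : Submodule ℝ (EuclideanSpace ℝ (Fin n)))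
    (L : (Fin k → ℝ) ≃ₗ[ℝ] H) : ∃ (c : ℝ) (M : (Fin k → ℝ) →ₗ[ℝ] (Fin n → ℝ)), 0 < c ∧
      Function.Injective M ∧ ∀ t, cubeVol H t = c * Vol M t := by
  obtain ⟨c, hc, h⟩ := hpar n H (Fin k → ℝ) volume L
  refine ⟨c, (WithLp.linearEquiv 2 ℝ (Fin n → ℝ)).toLinearMap ∘ₗ H.subtype ∘ₗ L.toLinearMap, hc,
    ?_, fun t => ?_⟩
  · intro x y hxy
    simp only [LinearMap.coe_comp, Function.comp_apply, LinearEquiv.coe_coe] at hxy
    have h1 := (WithLp.linearEquiv 2 ℝ (Fin n → ℝ)).injective hxy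
    exact L.injective (Subtype.val_injective h1)
  · unfold cubeVol Vol
    rw [h]
    · rfl
    · have : {x : EuclideanSpace ℝ (Fin n) | ∀ i, |x i| ≤ Real.exp (t i)} =
          ⋂ i, {x : EuclideanSpace ℝ (Fin n) | |x i| ≤ Real.exp (t i)} := by
        ext x; simp
      rw [this]
      refine MeasurableSet.iInter fun i => ?_
      refine measurableSet_le ?_ measurable_const
      exact (continuous_abs.comp (PiLp.continuous_apply 2 _ i)).measurable

/-- SMALL. -/
theorem small (hpar : ParStatement) (hposc : PoscStatement) (hpla : Pla3Statement) :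
    SmallStatement := by
  intro n H hH
  have L : (Fin (Module.finrank ℝ H) → ℝ) ≃ₗ[ℝ] H :=
    (Module.finBasis ℝ H).equivFun.symm
  obtain ⟨c, M, hc, hM, h⟩ := cubeVol_eq hpar H L
  apply logConcave_of (hposc n H)
  have h1 := hpla _ n M hM hH
  have h2 : (fun t => Real.log (cubeVol H t)) = fun t => Real.log (Vol M t) + Real.log c := by
    funext t
    have h3 : 0 < c * Vol M t := (h t) ▸ hposc n H t
    have h4 : 0 < Vol M t := pos_of_mul_pos_right h3 hc.le
    rw [h, Real.log_mul hc.ne' h4.ne', add_comm]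
  rw [h2]
  exact h1.add_const _

/-- A product with a constant. -/
theorem log_mul_const_concave {E : Type*} [AddCommMonoid E] [Module ℝ E] {F G : E → ℝ} {c : ℝ}
    (hc : 0 < c) (hF : ∀ x, 0 < F x) (hG : ∀ x, G x = c * F x)
    (h : ConcaveOn ℝ Set.univ fun x => Real.log (F x)) :
    ConcaveOn ℝ Set.univ fun x => Real.log (G x) := by
  have h2 : (fun t => Real.log (G t)) = fun t => Real.log (F t) + Real.log c := by
    funext t
    rw [hG, Real.log_mul hc.ne' (hF t).ne', add_comm]
  rw [h2]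
  exact h.add_const _

theorem concave_comp {E E' : Type*} [AddCommMonoid E] [Module ℝ E] [AddCommMonoid E']
    [Module ℝ E'] {F : E → ℝ} (h : ConcaveOn ℝ Set.univ F) (T : E' → E)
    (hT : ∀ x y : E', ∀ a b : ℝ, T (a • x + b • y) = a • T x + b • T y) :
    ConcaveOn ℝ Set.univ fun x => F (T x) := by
  refine ⟨convex_univ, fun x _ y _ a b ha hb hab => ?_⟩
  have h1 := h.2 (mem_univ (T x)) (mem_univ (T y)) ha hb hab
  rw [← hT] at h1
  exact h1

theorem append_split {n m : ℕ} (q : Fin (n + m) → ℝ) :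
    Fin.append (fun i => q (Fin.castAdd m i)) (fun j => q (Fin.natAdd n j)) = q := by
  funext i
  refine Fin.addCases (fun i => ?_) (fun j => ?_) i
  · rw [Fin.append_left]
  · rw [Fin.append_right]

/-- CUBE. -/
theorem cube (hcomb : CombStatement) (hposc : PoscStatement) (htwv : TwvStatement)
    (hdsv : DsvStatement) (hperm : PermvStatement) (hsmall : SmallStatement) : CubeStatement := by
  intro n H hH
  induction hH with
  | small H h => exact hsmall _ H h
  | good H h => exact h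
  | @perm n σ H _ ih =>
    apply logConcave_of (hposc _ _)
    have h1 := concave_comp (concaveOn_log ih) (fun t : Fin n → ℝ => fun i => t (σ i))
      (fun x y a b => rfl)
    have h2 : (fun t => Real.log (cubeVol (permSub σ H) t)) =
        fun t => Real.log (cubeVol H fun i => t (σ i)) := by
      funext t
      rw [hperm]
    rw [h2]
    exact h1
  | @dirSum n m H₁ H₂ _ _ ih₁ ih₂ =>
    obtain ⟨c, hc, h⟩ := hdsv n m H₁ H₂
    apply logConcave_of (hposc _ _)
    have h1 := concave_comp (concaveOn_log ih₁)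
      (fun t : Fin (n + m) → ℝ => fun i => t (Fin.castAdd m i)) (fun x y a b => rfl)
    have h2 := concave_comp (concaveOn_log ih₂)
      (fun t : Fin (n + m) → ℝ => fun i => t (Fin.natAdd n i)) (fun x y a b => rfl)
    have h3 : (fun t => Real.log (cubeVol (dirSum H₁ H₂) t)) =
        fun t => (Real.log (cubeVol H₁ fun i => t (Fin.castAdd m i)) +
          Real.log (cubeVol H₂ fun i => t (Fin.natAdd n i))) + Real.log c := by
      funext t
      have h4 := h (fun i => t (Fin.castAdd m i)) (fun j => t (Fin.natAdd n j))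
      rw [append_split] at h4
      rw [h4, Real.log_mul hc.ne' (mul_pos (ih₁.1 _) (ih₂.1 _)).ne',
        Real.log_mul (ih₁.1 _).ne' (ih₂.1 _).ne', add_comm]
    rw [h3]
    exact (h1.add h2).add_const _
  | @twoSum n m H₁ H₂ hp₁ hp₂ _ _ ih₁ ih₂ =>
    obtain ⟨k, l, L, M, c₁, c₂, c₃, hL, hM, hc₁, hc₂, hc₃, e₁, e₂, e₃⟩ := htwv n m H₁ H₂ hp₁ hp₂
    have key : ∀ {n k : ℕ} (H : Submodule ℝ (EuclideanSpace ℝ (Fin (n + 1))))
        (L : (ℝ × (Fin k → ℝ)) →ₗ[ℝ] (Fin n → ℝ)) (c : ℝ), 0 < c → LogConcave (cubeVol H) →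
        (∀ t ρ, cubeVol H (Fin.cons ρ t : Fin (n + 1) → ℝ) = c * slab L t ρ) → SlabLC L := by
      intro n k H L c hc ih e
      have h1 := concave_comp (concaveOn_log ih)
        (fun q : (Fin n → ℝ) × ℝ => (Fin.cons q.2 q.1 : Fin (n + 1) → ℝ)) (by
          intro x y a b
          funext i
          refine Fin.cases ?_ (fun j => ?_) i <;> simp)
      have h2 : ∀ q : (Fin n → ℝ) × ℝ, 0 < slab L q.1 q.2 := by
        intro q
        have h3 : 0 < c * slab L q.1 q.2 := (e q.1 q.2) ▸ ih.1 _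
        exact pos_of_mul_pos_right h3 hc.le
      unfold SlabLC
      refine log_mul_const_concave (F := fun q : (Fin n → ℝ) × ℝ =>
        cubeVol H (Fin.cons q.2 q.1 : Fin (n + 1) → ℝ)) (inv_pos.2 hc) (fun q => ih.1 _) ?_ h1
      intro q
      rw [e, inv_mul_cancel_left₀ hc.ne']
    have hcm := hcomb k l n m L M hL hM (key H₁ L c₁ hc₁ ih₁ e₁) (key H₂ M c₂ hc₂ ih₂ e₂)
    apply logConcave_of (hposc _ _)
    have h1 := concave_comp hcm.2 (fun t : Fin (n + m) → ℝ =>
      ((fun i => t (Fin.castAdd m i), fun j => t (Fin.natAdd n j)) :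
        (Fin n → ℝ) × (Fin m → ℝ))) (fun x y a b => rfl)
    refine log_mul_const_concave hc₃ (fun t : Fin (n + m) → ℝ =>
      hcm.1 (fun i => t (Fin.castAdd m i)) (fun j => t (Fin.natAdd n j))) ?_ h1
    intro t
    have h4 := e₃ (fun i => t (Fin.castAdd m i)) (fun j => t (Fin.natAdd n j))
    rw [append_split] at h4
    exact h4

end Pool.Agent.Lib.MP_fa837f_gt.TS.H87
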