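import Pool.Agent.Lib.MP_fa837f_gt.TS.Iface

/-!
SEC3: the slab volume as a function of the logarithm of the half width.
-/

set_option autoImplicit false

open MeasureTheory Set Filter Topology

namespace Pool.Agent.Lib.MP_fa837f_gt.TS.H87

open Pool.Agent.Lib.MP_fa837f_gt Pool.Agent.Lib.MP_fa837f_gt.TS

section

variable {s : ℝ → ℝ} (h0 : ∀ z, 0 ≤ s z) (hev : ∀ z, s (-z) = s z) (hanti : AntitoneOn s (Ici 0))

include hanti in
theorem ii_pos {a b : ℝ} (ha : 0 ≤ a) (hb : 0 ≤ b) : IntervalIntegrable s volume a b := by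
  apply AntitoneOn.intervalIntegrable
  apply hanti.mono
  intro x hx
  exact (le_min ha hb).trans (by simpa [uIcc] using hx.1)

include hev hanti in
theorem ii_neg {b : ℝ} (hb : 0 ≤ b) : IntervalIntegrable s volume (-b) 0 := by
  apply MonotoneOn.intervalIntegrable
  intro x hx y hy hxy
  have hy0 : y ≤ 0 := by
    rw [uIcc_of_le (by linarith)] at hy
    exact hy.2
  rw [← hev x, ← hev y]
  exact hanti (mem_Ici.2 (by linarith)) (mem_Ici.2 (by linarith)) (by linarith)

include hev hanti in
theorem int_sym {b : ℝ} (hb : 0 ≤ b) : ∫ z in (-b)..b, s z = 2 * ∫ z in (0 : ℝ)..b, s z := by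
  rw [← intervalIntegral.integral_add_adjacent_intervals (ii_neg hev hanti hb)
    (ii_pos hanti le_rfl hb)]
  have h1 : ∫ z in (-b)..0, s z = ∫ z in (0 : ℝ)..b, s z := by
    have h2 := intervalIntegral.integral_comp_neg (a := -b) (b := 0) (fun z => s z)
    simp only [hev, neg_zero, neg_neg] at h2
    exact h2
  rw [h1]
  ring

include hanti in
theorem int_le {a b : ℝ} (ha : 0 ≤ a) (hab : a ≤ b) : ∫ z in a..b, s z ≤ (b - a) * s a := by
  have h1 : ∫ z in a..b, s z ≤ ∫ _ in a..b, s a := by
    apply intervalIntegral.integral_mono_on hab (ii_pos hanti ha (ha.trans hab))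
      intervalIntegrable_const
    intro x hx
    exact hanti ha (ha.trans hx.1) hx.1
  rw [intervalIntegral.integral_const, smul_eq_mul] at h1
  exact h1

include hanti in
theorem le_int {a : ℝ} (ha : 0 ≤ a) : a * s a ≤ ∫ z in (0 : ℝ)..a, s z := by
  have h1 : ∫ _ in (0 : ℝ)..a, s a ≤ ∫ z in (0 : ℝ)..a, s z := by
    apply intervalIntegral.integral_mono_on ha intervalIntegrable_const
      (ii_pos hanti le_rfl ha)
    intro x hx
    exact hanti hx.1 ha hx.2
  rw [intervalIntegral.integral_const, smul_eq_mul, sub_zero] at h1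
  exact h1

include hanti in
theorem int_split {a b : ℝ} (ha : 0 ≤ a) (hb : 0 ≤ b) :
    ∫ z in (0 : ℝ)..b, s z = (∫ z in (0 : ℝ)..a, s z) + ∫ z in a..b, s z :=
  (intervalIntegral.integral_add_adjacent_intervals (ii_pos hanti le_rfl ha)
    (ii_pos hanti ha hb)).symm

include hanti in
/-- The mean values decrease. -/
theorem mean_le {a b : ℝ} (ha : 0 < a) (hab : a ≤ b) :
    ∫ z in (0 : ℝ)..b, s z ≤ b / a * ∫ z in (0 : ℝ)..a, s z := by
  rw [int_split hanti ha.le (ha.le.trans hab)]
  have h1 := int_le hanti ha.le hab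
  have h2 := le_int hanti ha.le
  have h3 : (b - a) * s a ≤ (b - a) / a * ∫ z in (0 : ℝ)..a, s z := by
    have h4 : (b - a) * s a = (b - a) / a * (a * s a) := by
      field_simp
    rw [h4]
    exact mul_le_mul_of_nonneg_left h2 (div_nonneg (by linarith) ha.le)
  have h5 : b / a * (∫ z in (0 : ℝ)..a, s z) = (∫ z in (0 : ℝ)..a, s z) +
      (b - a) / a * ∫ z in (0 : ℝ)..a, s z := by
    field_simp
    ring
  rw [h5]
  linarith

include hanti in
theorem countable_disc : {z : ℝ | 0 < z ∧ ¬ ContinuousAt s z}.Countable := by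
  have h1 : Antitone fun z => s (max z 0) := by
    intro x y hxy
    exact hanti (mem_Ici.2 (le_max_right x 0)) (mem_Ici.2 (le_max_right y 0)) (max_le_max hxy le_rfl)
  refine h1.countable_not_continuousAt.mono ?_
  rintro z ⟨hz, hc⟩
  intro h2
  apply hc
  refine h2.congr ?_
  filter_upwards [eventually_gt_nhds hz] with x hx
  rw [max_eq_left hx.le]

include hanti in
theorem deriv_int {r : ℝ} (hr : 0 < r) (hc : ContinuousAt s r) :
    HasDerivAt (fun x => ∫ z in (0 : ℝ)..x, s z) (s r) r := by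
  apply intervalIntegral.integral_hasDerivAt_right (ii_pos hanti le_rfl hr.le) _ hc
  refine ⟨Ioi 0, Ioi_mem_nhds hr, ?_⟩
  apply AEMeasurable.aestronglyMeasurable
  apply aemeasurable_restrict_of_antitoneOn measurableSet_Ioi
  exact hanti.mono fun x hx => mem_Ici.2 (le_of_lt (mem_Ioi.1 hx))

end

/-- SEC3. -/
theorem sec3 (hs : Sec1Statement) : Sec3Statement := by
  intro k n L hL t
  obtain ⟨-, hev, hanti, ⟨R, hR⟩, r, hr, hr'⟩ := hs k n L hL t
  have h0 : ∀ z, 0 ≤ sec L t z := fun z => ENNReal.toReal_nonneg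
  have hslab : ∀ ρ, slab L t ρ = 2 * ∫ z in (0 : ℝ)..(Real.exp ρ), sec L t z := fun ρ =>
    int_sym hev hanti (Real.exp_pos ρ).le
  have hmono : ∀ {a b : ℝ}, 0 ≤ a → a ≤ b →
      ∫ z in (0 : ℝ)..a, sec L t z ≤ ∫ z in (0 : ℝ)..b, sec L t z := by
    intro a b ha hab
    rw [int_split hanti ha (ha.trans hab)]
    have : 0 ≤ ∫ z in a..b, sec L t z :=
      intervalIntegral.integral_nonneg hab fun z _ => h0 z
    linarith
  have hposI : ∀ {a : ℝ}, 0 < a → 0 < ∫ z in (0 : ℝ)..a, sec L t z := by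
    intro a ha
    have h1 : 0 < min a r := lt_min ha hr
    have h2 := le_int hanti h1.le
    have h3 := hmono h1.le (min_le_left a r)
    have h4 : sec L t r ≤ sec L t (min a r) := hanti h1.le hr.le (min_le_right _ _)
    have h5 : 0 < min a r * sec L t (min a r) := mul_pos h1 (hr'.trans_le h4)
    linarith
  refine ⟨?_, ?_, ?_, ?_, ?_⟩
  · intro ρ ρ' h
    rw [hslab, hslab]
    have := hmono (Real.exp_pos ρ).le (Real.exp_le_exp.2 h)
    linarith
  · intro ρ ρ' h
    rw [hslab, hslab, Real.exp_sub]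
    have := mean_le hanti (Real.exp_pos ρ) (Real.exp_le_exp.2 h)
    linarith
  · refine ⟨2 * ∫ z in (0 : ℝ)..(max R 0), sec L t z, fun ρ => ?_⟩
    rw [hslab]
    have h1 : ∫ z in (0 : ℝ)..(Real.exp ρ), sec L t z ≤ ∫ z in (0 : ℝ)..(max R 0), sec L t z := by
      rcases le_total (Real.exp ρ) (max R 0) with h | h
      · exact hmono (Real.exp_pos ρ).le h
      · rw [int_split hanti (le_max_right R 0) (Real.exp_pos ρ).le]
        have h2 : ∫ z in (max R 0)..(Real.exp ρ), sec L t z = 0 := by
          rw [intervalIntegral.integral_congr (g := fun _ => (0 : ℝ))]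
          · simp
          · intro z hz
            rw [uIcc_of_le h] at hz
            exact hR z ((le_max_left R 0).trans hz.1)
        rw [h2, add_zero]
    linarith
  · refine ⟨2 * sec L t 0, fun ρ => ?_⟩
    rw [hslab]
    have h1 := int_le hanti le_rfl (Real.exp_pos ρ).le
    rw [sub_zero] at h1
    nlinarith
  · have h1 : (Real.exp ⁻¹' {z : ℝ | 0 < z ∧ ¬ ContinuousAt (sec L t) z}).Countable :=
      (countable_disc hanti).preimage Real.exp_injective
    filter_upwards [h1.ae_notMem volume] with ρ hρ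
    have h2 : ContinuousAt (sec L t) (Real.exp ρ) := by
      by_contra hc
      exact hρ ⟨Real.exp_pos ρ, hc⟩
    have h3 := (deriv_int hanti (Real.exp_pos ρ) h2).comp ρ (Real.hasDerivAt_exp ρ)
    have h4 : HasDerivAt (slab L t) (2 * (sec L t (Real.exp ρ) * Real.exp ρ)) ρ := by
      have h5 := h3.const_mul (2 : ℝ)
      refine h5.congr_of_eventuallyEq (Eventually.of_forall fun x => ?_)
      exact hslab x
    have h5 : slab L t ρ ≠ 0 := by
      rw [hslab]
      exact (mul_pos two_pos (hposI (Real.exp_pos ρ))).ne'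
    have h6 := h4.log h5
    convert h6 using 1
    ring

end Pool.Agent.Lib.MP_fa837f_gt.TS.H87
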